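import Pool.Agent.ShiftUnif.Shift

/-!
# Non-dominating sets are 3-colourable
-/

namespace Pool.Agent.ShiftUnif

/-- third element of `y` from `n` on -/
noncomputable def third (y : InfSets) (n : ℕ) : ℕ := nx y (nx y (nx y n + 1) + 1)

/-- `y` dominates `z` -/
def Dom (z : ℕ → ℕ) (y : InfSets) : Prop := ∃ K, ∀ n, z n ≤ third y n + K

theorem measurable_third (n : ℕ) : Measurable fun y => third y n :=
  measurable_nx ((measurable_nx ((measurable_nx measurable_const).add_const 1)).add_const 1)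

theorem sh_mem_iff (y : InfSets) (j : ℕ) :
    ∀ i, (sh j y).1 i = true ↔ y.1 i = true ∧ fst (sh j y) ≤ i := by
  induction j with
  | zero =>
    intro i
    rw [sh_zero]
    exact ⟨fun h => ⟨h, fst_le h⟩, fun h => h.1⟩
  | succ j ih =>
    intro i
    have h1 : (sh (j + 1) y).1 i = true ↔ (sh j y).1 i = true ∧ fst (sh j y) < i := by
      rw [sh_succ', shift_mem_iff]
    constructor
    · intro h
      exact ⟨((ih i).1 (h1.1 h).1).1, fst_le h⟩
    · rintro ⟨h2, h3⟩
      have h4 := fst_sh_lt y j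
      exact h1.2 ⟨(ih i).2 ⟨h2, by omega⟩, by omega⟩

theorem nx_sh (y : InfSets) (j : ℕ) : nx y (fst (sh j y) + 1) = fst (sh (j + 1) y) := by
  have hlt := fst_sh_lt y j
  apply le_antisymm
  · refine nx_le (by omega) ?_
    exact ((sh_mem_iff y (j + 1) _).1 (fst_mem _)).1
  · apply fst_le
    have h := nx_spec y (fst (sh j y) + 1)
    rw [sh_succ', shift_mem_iff]
    exact ⟨(sh_mem_iff y j _).2 ⟨h.2, by omega⟩, by omega⟩

theorem sh_strictMono (y : InfSets) : StrictMono fun j => fst (sh j y) :=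
  strictMono_nat_of_lt_succ (fst_sh_lt y)

theorem snd_sh (y : InfSets) (j : ℕ) : snd (sh j y) = fst (sh (j + 1) y) := by
  rw [← fst_shift, ← sh_succ']

/-- bounds of the intervals -/
def mm (z : ℕ → ℕ) : ℕ → ℕ
  | 0 => 0
  | k + 1 => mm z k + 1 + ∑ n ∈ Finset.range (mm z k + 1), z n

theorem mm_lt (z : ℕ → ℕ) (k : ℕ) : mm z k < mm z (k + 1) := by
  show mm z k < mm z k + 1 + _
  omega

theorem le_mm (z : ℕ → ℕ) (k : ℕ) : k ≤ mm z k := by
  induction k with
  | zero => exact Nat.zero_le _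
  | succ k ih =>
    have := mm_lt z k
    omega

theorem z_le_mm (z : ℕ → ℕ) {k n : ℕ} (h : n ≤ mm z k) : z n ≤ mm z (k + 1) := by
  have h1 : z n ≤ ∑ n ∈ Finset.range (mm z k + 1), z n :=
    Finset.single_le_sum (f := z) (fun _ _ => Nat.zero_le _) (Finset.mem_range.2 (by omega))
  show z n ≤ mm z k + 1 + _
  omega

theorem exists_kap (z : ℕ → ℕ) (n : ℕ) : ∃ k, n < mm z (k + 1) :=
  ⟨n, by have := le_mm z (n + 1); omega⟩

/-- index of the interval containing `n` -/
noncomputable def kap (z : ℕ → ℕ) (n : ℕ) : ℕ := Nat.find (exists_kap z n)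

theorem kap_spec (z : ℕ → ℕ) (n : ℕ) : n < mm z (kap z n + 1) := Nat.find_spec (exists_kap z n)

theorem kap_le {z : ℕ → ℕ} {n k : ℕ} (h : n < mm z (k + 1)) : kap z n ≤ k :=
  Nat.find_min' (exists_kap z n) h

theorem kap_mono {z : ℕ → ℕ} {n n' : ℕ} (h : n ≤ n') : kap z n ≤ kap z n' :=
  kap_le (lt_of_le_of_lt h (kap_spec z n'))

theorem kap_z {z : ℕ → ℕ} {n j : ℕ} (h : j < z n) : kap z j ≤ kap z n + 1 := by
  apply kap_le
  have h1 := z_le_mm z (kap_spec z n).le
  omega

theorem mm_strictMono (z : ℕ → ℕ) : StrictMono (mm z) := strictMono_nat_of_lt_succ (mm_lt z)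

theorem kap_unbounded (z : ℕ → ℕ) (K : ℕ) : K ≤ kap z (mm z K) := by
  by_contra hcon
  have h1 := kap_spec z (mm z K)
  have h2 := (mm_strictMono z).monotone (show kap z (mm z K) + 1 ≤ K by omega)
  omega

/-- if `y` does not dominate `z` then markers occur arbitrarily late -/
theorem good_of_not_dom {z : ℕ → ℕ} {y : InfSets} (h : ¬ Dom z y) (J : ℕ) :
    ∃ j, J ≤ j ∧ Mark (kap z) (sh j y) := by
  classical
  unfold Dom at h
  push Not at h
  -- same class infinitely often
  have hsame : ∃ j, J ≤ j ∧ Same (kap z) (sh j y) := by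
    set N := fst (sh J y) with hN
    obtain ⟨n, hn⟩ := h (∑ i ∈ Finset.range (N + 1), z i)
    have hnN : N < n := by
      by_contra hcon
      have h1 : z n ≤ ∑ i ∈ Finset.range (N + 1), z i :=
        Finset.single_le_sum (f := z) (fun _ _ => Nat.zero_le _) (Finset.mem_range.2 (by omega))
      omega
    have ha := nx_spec y n
    have hc : third y n < z n := by omega
    obtain ⟨j, hj⟩ := exists_sh_eq y ha.2
    have hb : nx y (nx y n + 1) = fst (sh (j + 1) y) := by rw [← hj, nx_sh]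
    have hc' : third y n = fst (sh (j + 2) y) := by
      unfold third
      rw [hb, nx_sh]
    have hJ : J ≤ j := by
      by_contra hcon
      have := (sh_strictMono y) (show j < J by omega)
      simp only at this
      omega
    have h1 := fst_sh_lt y j
    have h2 := fst_sh_lt y (j + 1)
    have k1 : kap z n ≤ kap z (fst (sh j y)) := kap_mono (by omega)
    have k2 : kap z (fst (sh j y)) ≤ kap z (fst (sh (j + 1) y)) := kap_mono h1.le
    have k3 : kap z (fst (sh (j + 1) y)) ≤ kap z (fst (sh (j + 2) y)) := kap_mono h2.le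
    have k4 : kap z (fst (sh (j + 2) y)) ≤ kap z n + 1 := kap_z (by omega)
    by_cases hs : kap z (fst (sh j y)) = kap z (fst (sh (j + 1) y))
    · exact ⟨j, hJ, by unfold Same; rw [snd_sh]; exact hs⟩
    · refine ⟨j + 1, by omega, ?_⟩
      unfold Same
      rw [snd_sh]
      show kap z (fst (sh (j + 1) y)) = kap z (fst (sh (j + 2) y))
      omega
  obtain ⟨j0, hj0, hs0⟩ := hsame
  -- different class after `j0`
  have hdiff : ∃ i, ¬ Same (kap z) (sh (j0 + i) y) := by
    by_contra hcon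
    push Not at hcon
    have hconst : ∀ i, kap z (fst (sh (j0 + i) y)) = kap z (fst (sh j0 y)) := by
      intro i
      induction i with
      | zero => rfl
      | succ i ih =>
        have := hcon i
        unfold Same at this
        rw [snd_sh] at this
        rw [← ih, this]
        rfl
    set K := kap z (fst (sh j0 y)) with hK
    have h1 := kap_unbounded z (K + 1)
    have h2 := hconst (mm z (K + 1))
    have h3 := le_fst_sh y (j0 + mm z (K + 1))
    have h4 : kap z (mm z (K + 1)) ≤ kap z (fst (sh (j0 + mm z (K + 1)) y)) := kap_mono (by omega)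
    omega
  have hsp := Nat.find_spec hdiff
  have hmin := fun (k : ℕ) => Nat.find_min (m := k) hdiff
  set i0 := Nat.find hdiff with hi0
  obtain ⟨i, hi⟩ : ∃ i, i0 = i + 1 := by
    refine ⟨i0 - 1, ?_⟩
    have : i0 ≠ 0 := by
      intro h0
      rw [h0] at hsp
      exact hsp hs0
    omega
  refine ⟨j0 + i, by omega, ?_, ?_⟩
  · by_contra hns
    exact hmin i (by omega) hns
  · rw [← sh_succ']
    rw [hi] at hsp
    exact hsp

theorem colourable_of_not_dom {z : ℕ → ℕ} {A : Set InfSets} (hA : ∀ y ∈ A, ¬ Dom z y) :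
    BorelColourable 3 A := by
  refine borelColourable_of_good (κ := kap z) fun y hy => ⟨?_, ?_⟩
  · obtain ⟨j, -, hj⟩ := good_of_not_dom (hA y hy) 0
    exact ⟨j, hj⟩
  · obtain ⟨j, h1, hj⟩ := good_of_not_dom (hA y hy) 1
    obtain ⟨i, rfl⟩ : ∃ i, j = i + 1 := ⟨j - 1, by omega⟩
    exact ⟨i, by rw [sh_succ] at hj; exact hj⟩

/-- the set `B` -/
def BB : Set ((ℕ → ℕ) × InfSets) :=
  {p | ¬ ((∃ z, (p.1, z) ∈ C 0 ∧ Dom z p.2) ∨ (∃ z, (p.1, z) ∈ C 1 ∧ Dom z p.2))}

theorem measurableSet_dom {E : Type*} [MeasurableSpace E] {x : E → ℕ → ℕ} {y : E → InfSets}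
    (hx : Measurable x) (hy : Measurable y) (i : ℕ) :
    MeasurableSet {e | ∃ z, (x e, z) ∈ C i ∧ Dom z (y e)} := by
  have : {e | ∃ z, (x e, z) ∈ C i ∧ Dom z (y e)} = ⋃ K : ℕ,
      (fun e => (x e, fun n => third (y e) n + K)) ⁻¹'
        {q : (ℕ → ℕ) × (ℕ → ℕ) | ∃ z, (q.1, z) ∈ C i ∧ ∀ n, z n ≤ q.2 n} := by
    ext e
    simp only [Set.mem_iUnion]
    constructor
    · rintro ⟨z, hz, K, hK⟩
      exact ⟨K, z, hz, hK⟩
    · rintro ⟨K, z, hz, hK⟩
      exact ⟨z, hz, K, hK⟩
  rw [this]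
  refine MeasurableSet.iUnion fun K => ?_
  have hm : Measurable fun e => ((x e, fun n => third (y e) n + K) : (ℕ → ℕ) × (ℕ → ℕ)) := by
    refine hx.prodMk (measurable_pi_iff.2 fun n => ?_)
    exact ((measurable_third n).comp hy).add_const K
  exact hm (isClosed_bproj (isClosed_C i)).measurableSet

theorem measurableSet_BB : MeasurableSet BB :=
  ((measurableSet_dom measurable_fst measurable_snd 0).union
    (measurableSet_dom measurable_fst measurable_snd 1)).compl

theorem BB_sections (x : ℕ → ℕ) : BorelColourable 3 {y | (x, y) ∈ BB} := by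
  rcases C_nonempty x with ⟨z, hz⟩ | ⟨z, hz⟩
  · refine colourable_of_not_dom (z := z) fun y hy hd => ?_
    exact hy (Or.inl ⟨z, hz, hd⟩)
  · refine colourable_of_not_dom (z := z) fun y hy hd => ?_
    exact hy (Or.inr ⟨z, hz, hd⟩)

theorem BB_no_unif : ¬ ∃ f : (ℕ → ℕ) → InfSets, Measurable f ∧ ∀ x, (x, f x) ∉ BB := by
  rintro ⟨f, hf, hB⟩
  have hA : MeasurableSet {x : ℕ → ℕ | ∃ z, (x, z) ∈ C 0 ∧ Dom z (f x)} :=
    measurableSet_dom measurable_id hf 0
  obtain ⟨x, hx⟩ := exists_codes hA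
  have hd := C_diag hx
  by_cases hxA : x ∈ {x : ℕ → ℕ | ∃ z, (x, z) ∈ C 0 ∧ Dom z (f x)}
  · have hxA' := hxA
    obtain ⟨z, hz, -⟩ := hxA'
    exact hd.1 hxA ⟨z, hz⟩
  · have h1 := hB x
    have h2 : (∃ z, (x, z) ∈ C 0 ∧ Dom z (f x)) ∨ (∃ z, (x, z) ∈ C 1 ∧ Dom z (f x)) := by
      by_contra hcon
      exact h1 hcon
    rcases h2 with h2 | ⟨z, hz, -⟩
    · exact hxA h2
    · exact hd.2 hxA ⟨z, hz⟩

end Pool.Agent.ShiftUnif
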