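import Pool.Agent.ShiftUnif.Codes

/-!
# Closedness of `C i` and bounded projections
-/

namespace Pool.Agent.ShiftUnif

open Topology

section cont
variable {E : Type*} [TopologicalSpace E]

/-- evaluating a sequence at a continuously varying index -/
theorem cont_eval {f : E → ℕ → ℕ} {g : E → ℕ} (hf : Continuous f) (hg : Continuous g) :
    Continuous fun e => f e (g e) := by
  have h1 : Continuous fun p : (ℕ → ℕ) × ℕ => p.1 p.2 := by
    rw [continuous_prod_of_discrete_right]
    intro b
    exact continuous_apply b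
  exact h1.comp (hf.prodMk hg)

theorem isClosed_imp_eq {f g f' g' : E → ℕ} (hf : Continuous f) (hg : Continuous g)
    (hf' : Continuous f') (hg' : Continuous g') : IsClosed {e | f e = g e → f' e = g' e} := by
  have : {e | f e = g e → f' e = g' e} = {e | f e = g e}ᶜ ∪ {e | f' e = g' e} := by
    ext e
    simp only [Set.mem_union, Set.mem_compl_iff, Set.mem_ofPred_eq]
    tauto
  rw [this]
  refine IsClosed.union ?_ (isClosed_eq hf' hg')
  rw [isClosed_compl_iff]
  have h2 : {e | f e = g e} = (fun e => (f e, g e)) ⁻¹' {q : ℕ × ℕ | q.1 = q.2} := rfl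
  rw [h2]
  exact (isOpen_discrete _).preimage (hf.prodMk hg)

theorem isClosed_pred {f : E → ℕ} (hf : Continuous f) (P : ℕ → Prop) : IsClosed {e | P (f e)} :=
  IsClosed.preimage hf (isClosed_discrete {n | P n})

theorem isClosed_pred2 {f g : E → ℕ} (hf : Continuous f) (hg : Continuous g) (P : ℕ → ℕ → Prop) :
    IsClosed {e | P (f e) (g e)} :=
  IsClosed.preimage (hf.prodMk hg) (isClosed_discrete {n : ℕ × ℕ | P n.1 n.2})

theorem cont_lab {x : E → ℕ → ℕ} (hx : Continuous x) {m : E → ℕ} (hm : Continuous m) :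
    Continuous fun e => lab (x e) (m e) := by
  show Continuous fun e => x e (2 * m e)
  exact cont_eval hx ((continuous_of_discreteTopology (f := fun n : ℕ => 2 * n)).comp hm)

theorem cont_ch {x : E → ℕ → ℕ} (hx : Continuous x) {m j : E → ℕ} (hm : Continuous m)
    (hj : Continuous j) : Continuous fun e => ch (x e) (m e) (j e) := by
  show Continuous fun e => x e (2 * Nat.pair (m e) (j e) + 1)
  exact cont_eval hx ((continuous_of_discreteTopology
    (f := fun n : ℕ × ℕ => 2 * Nat.pair n.1 n.2 + 1)).comp (hm.prodMk hj))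

theorem cont_at {x : E → ℕ → ℕ} (hx : Continuous x) (m : ℕ) : Continuous fun e => x e m :=
  (continuous_apply m).comp hx

theorem isClosed_branch {x b : E → ℕ → ℕ} (hx : Continuous x) (hb : Continuous b) :
    IsClosed {e | Branch (x e) (b e)} := by
  have : {e | Branch (x e) (b e)} = ⋂ i, ({e | lab (x e) (b e (2 * i)) = 0} ∩
      {e | b e (2 * (i + 1)) = ch (x e) (b e (2 * i)) (b e (2 * i + 1))}) := by
    ext e
    simp [Branch]
  rw [this]
  refine isClosed_iInter fun i => ?_
  exact (isClosed_pred (cont_lab hx (cont_at hb _)) (fun n => n = 0)).inter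
    (isClosed_eq (cont_at hb _) (cont_ch hx (cont_at hb _) (cont_at hb _)))

theorem isClosed_val {x w v u : E → ℕ → ℕ} (hx : Continuous x) (hw : Continuous w)
    (hv : Continuous v) (hu : Continuous u) : IsClosed {e | Val (x e) (w e) (v e) (u e)} := by
  have : {e | Val (x e) (w e) (v e) (u e)} = ⋂ m, ({e | v e m ≤ 1} ∩
      ((⋂ k, {e | lab (x e) m = k + 1 → (v e m = 1 ↔ bas k (w e))}) ∩
      ((⋂ j, {e | lab (x e) m = 0 → v e m = 1 → v e (ch (x e) m j) = 0}) ∩
      {e | lab (x e) m = 0 → v e m = 0 → v e (ch (x e) m (u e m)) = 1}))) := by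
    ext e
    simp only [Val, Set.mem_iInter, Set.mem_inter_iff, Set.mem_ofPred_eq]
    refine forall_congr' fun m => ?_
    refine and_congr Iff.rfl (and_congr Iff.rfl (and_congr ?_ Iff.rfl))
    tauto
  rw [this]
  refine isClosed_iInter fun m => ?_
  have hl : Continuous fun e => lab (x e) m := cont_lab hx continuous_const
  refine (isClosed_pred (cont_at hv m) (fun n => n ≤ 1)).inter ?_
  refine IsClosed.inter (isClosed_iInter fun k => ?_) (IsClosed.inter (isClosed_iInter fun j => ?_) ?_)
  · have h1 : Continuous fun e => (lab (x e) m, (v e m, w e k.unpair.1)) :=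
      hl.prodMk ((cont_at hv m).prodMk (cont_at hw _))
    exact IsClosed.preimage h1 (isClosed_discrete
      {n : ℕ × ℕ × ℕ | n.1 = k + 1 → (n.2.1 = 1 ↔ n.2.2 = k.unpair.2)})
  · have h1 : Continuous fun e => (lab (x e) m, (v e m, v e (ch (x e) m j))) :=
      hl.prodMk ((cont_at hv m).prodMk (cont_eval hv (cont_ch hx continuous_const continuous_const)))
    exact IsClosed.preimage h1 (isClosed_discrete
      {n : ℕ × ℕ × ℕ | n.1 = 0 → n.2.1 = 1 → n.2.2 = 0})
  · have h1 : Continuous fun e => (lab (x e) m, (v e m, v e (ch (x e) m (u e m)))) :=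
      hl.prodMk ((cont_at hv m).prodMk (cont_eval hv (cont_ch hx continuous_const (cont_at hu m))))
    exact IsClosed.preimage h1 (isClosed_discrete
      {n : ℕ × ℕ × ℕ | n.1 = 0 → n.2.1 = 0 → n.2.2 = 1})

end cont

theorem isClosed_C (i : ℕ) : IsClosed (C i) := by
  have hx : Continuous fun p : (ℕ → ℕ) × (ℕ → ℕ) => p.1 := continuous_fst
  have hz : Continuous fun p : (ℕ → ℕ) × (ℕ → ℕ) => p.2 := continuous_snd
  have hsh : ∀ s : ℕ → ℕ, Continuous fun p : (ℕ → ℕ) × (ℕ → ℕ) => (fun n => p.2 (s n)) :=
    fun s => continuous_pi fun n => (continuous_apply (s n)).comp hz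
  have : C i = ({p | p.2 0 = 0} ∩ {p | Branch p.1 (fun n => p.2 (n + 1))}) ∪
      ({p | p.2 0 = 1} ∩ ({p | Val p.1 p.1 (fun n => p.2 (2 * n + 1)) (fun n => p.2 (2 * n + 2))} ∩
        {p | p.2 1 = i})) := by
    ext p
    simp [C]
  rw [this]
  refine IsClosed.union ?_ ?_
  · exact (isClosed_pred (cont_at hz 0) (fun n => n = 0)).inter (isClosed_branch hx (hsh _))
  · exact (isClosed_pred (cont_at hz 0) (fun n => n = 1)).inter
      ((isClosed_val hx hx (hsh _) (hsh _)).inter (isClosed_pred (cont_at hz 1) (fun n => n = i)))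

/-! ## bounded projection -/

open Classical in
/-- number of `true` values below `b` -/
noncomputable def cn (t : ℕ → Bool) (b : ℕ) : ℕ := ((Finset.range b).filter (fun j => t j = true)).card

theorem cn_le (t : ℕ → Bool) (b : ℕ) : cn t b ≤ b := by
  unfold cn
  exact (Finset.card_filter_le _ _).trans (by simp)

theorem cn_succ (t : ℕ → Bool) (b : ℕ) : cn t (b + 1) = cn t b + (t b).toNat := by
  classical
  unfold cn
  rw [Finset.range_add_one, Finset.filter_insert]
  split_ifs with h
  · rw [Finset.card_insert_of_notMem (by simp), h]; rfl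
  · have : t b = false := by simpa using h
    rw [this]; simp

theorem cn_decide {a b : ℕ} (h : a ≤ b) : cn (fun j => decide (j < a)) b = a := by
  classical
  unfold cn
  have : (Finset.range b).filter (fun j => decide (j < a) = true) = Finset.range a := by
    ext j
    simp only [Finset.mem_filter, Finset.mem_range, decide_eq_true_eq]
    omega
  rw [this]; simp

theorem cont_cn (b : ℕ) : Continuous fun t : ℕ → Bool => cn t b := by
  induction b with
  | zero =>
    have : (fun t : ℕ → Bool => cn t 0) = fun _ => 0 := by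
      funext t; simp [cn]
    rw [this]; exact continuous_const
  | succ b ih =>
    have : (fun t : ℕ → Bool => cn t (b + 1)) = fun t => cn t b + (t b).toNat := by
      funext t; exact cn_succ t b
    rw [this]
    exact ih.add ((continuous_of_discreteTopology (f := Bool.toNat)).comp (continuous_apply b))

/-- projection of a closed set along bounded sequences -/
theorem isClosed_bproj {K : Set ((ℕ → ℕ) × (ℕ → ℕ))} (hK : IsClosed K) :
    IsClosed {q : (ℕ → ℕ) × (ℕ → ℕ) | ∃ z, (q.1, z) ∈ K ∧ ∀ n, z n ≤ q.2 n} := by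
  have hcont : Continuous fun p : ((ℕ → ℕ) × (ℕ → ℕ)) × (ℕ → ℕ → Bool) =>
      ((p.1.1, fun n => cn (p.2 n) (p.1.2 n)) : (ℕ → ℕ) × (ℕ → ℕ)) := by
    refine (continuous_fst.comp continuous_fst).prodMk (continuous_pi fun n => ?_)
    have h1 : Continuous fun p : (ℕ → Bool) × ℕ => cn p.1 p.2 := by
      rw [continuous_prod_of_discrete_right]
      exact cont_cn
    have h2 : Continuous fun p : ((ℕ → ℕ) × (ℕ → ℕ)) × (ℕ → ℕ → Bool) => (p.2 n, p.1.2 n) :=
      ((continuous_apply n).comp continuous_snd).prodMk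
        ((continuous_apply n).comp (continuous_snd.comp continuous_fst))
    exact h1.comp h2
  have hcl := hK.preimage hcont
  have himg := (isClosedMap_fst_of_compactSpace (X := (ℕ → ℕ) × (ℕ → ℕ)) (Y := ℕ → ℕ → Bool)) _ hcl
  convert himg using 1
  ext ⟨x, w⟩
  constructor
  · rintro ⟨z, hz, hle⟩
    refine ⟨((x, w), fun n j => decide (j < z n)), ?_, rfl⟩
    show ((x, fun n => cn (fun j => decide (j < z n)) (w n)) : (ℕ → ℕ) × (ℕ → ℕ)) ∈ K
    have : (fun n => cn (fun j => decide (j < z n)) (w n)) = z := by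
      funext n; exact cn_decide (hle n)
    rw [this]; exact hz
  · rintro ⟨⟨⟨x', w'⟩, t⟩, ht, hEq⟩
    cases hEq
    exact ⟨fun n => cn (t n) (w n), ht, fun n => cn_le _ _⟩

end Pool.Agent.ShiftUnif
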