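import Mathlib

/-!
# Borel codes and a pair of closed sets

Reals `x : ℕ → ℕ` code countable graphs of set operations.  `x (2 * m)` is the label of node `m`
(`0`: complement of the union of the children, `k + 1`: the basic set number `k`) and
`x (2 * Nat.pair m j + 1)` is the `j`-th child of node `m`.
-/

namespace Pool.Agent.ShiftUnif

/-- label of a node -/
def lab (x : ℕ → ℕ) (m : ℕ) : ℕ := x (2 * m)

/-- `j`-th child of a node -/
def ch (x : ℕ → ℕ) (m j : ℕ) : ℕ := x (2 * Nat.pair m j + 1)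

/-- membership in the basic set number `k` -/
def bas (k : ℕ) (w : ℕ → ℕ) : Prop := w k.unpair.1 = k.unpair.2

/-- infinite descending path of internal nodes -/
def Branch (x b : ℕ → ℕ) : Prop :=
  ∀ i, lab x (b (2 * i)) = 0 ∧ b (2 * (i + 1)) = ch x (b (2 * i)) (b (2 * i + 1))

/-- locally correct valuation `v` with witnesses `u` -/
def Val (x w v u : ℕ → ℕ) : Prop :=
  ∀ m, v m ≤ 1 ∧ (∀ k, lab x m = k + 1 → (v m = 1 ↔ bas k w)) ∧
    (lab x m = 0 → v m = 1 → ∀ j, v (ch x m j) = 0) ∧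
    (lab x m = 0 → v m = 0 → v (ch x m (u m)) = 1)

/-- evaluation of nodes -/
inductive Ev (x w : ℕ → ℕ) : ℕ → Prop → Prop
  | leaf (m k : ℕ) (p : Prop) (h : lab x m = k + 1) (hp : p ↔ bas k w) : Ev x w m p
  | pos (m : ℕ) (p : Prop) (h : lab x m = 0) (h' : ∀ j, Ev x w (ch x m j) False) (hp : p) : Ev x w m p
  | neg (m j : ℕ) (p : Prop) (h : lab x m = 0) (h' : Ev x w (ch x m j) True) (hp : ¬ p) : Ev x w m p

theorem Ev.val {x w v u : ℕ → ℕ} (hV : Val x w v u) {m : ℕ} {p : Prop} (h : Ev x w m p) :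
    v m = 1 ↔ p := by
  induction h with
  | leaf m k p h hp => rw [hp]; exact (hV m).2.1 k h
  | pos m p h h' hp ih =>
    refine ⟨fun _ => hp, fun _ => ?_⟩
    by_contra hv
    have h0 : v m = 0 := by
      have := (hV m).1
      omega
    have h1 := (hV m).2.2.2 h h0
    exact (ih (u m)).1 h1
  | neg m j p h h' hp ih =>
    refine ⟨fun hv => ?_, fun h => absurd h hp⟩
    have h1 := (hV m).2.2.1 h hv j
    have h2 := ih.2 trivial
    omega

/-- in a well-founded code every node has a value -/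
theorem exists_ev {x w : ℕ → ℕ} (hx : ¬ ∃ b, Branch x b) (m : ℕ) : ∃ p, Ev x w m p := by
  classical
  by_contra hm
  apply hx
  have hstep : ∀ m, (¬ ∃ p, Ev x w m p) → lab x m = 0 ∧ ∃ j, ¬ ∃ p, Ev x w (ch x m j) p := by
    intro m hm
    have h0 : lab x m = 0 := by
      by_contra hne
      obtain ⟨k, hk⟩ := Nat.exists_eq_succ_of_ne_zero hne
      exact hm ⟨_, Ev.leaf m k _ hk Iff.rfl⟩
    refine ⟨h0, ?_⟩
    by_contra hcon
    push Not at hcon
    by_cases hpos : ∃ j, Ev x w (ch x m j) True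
    · obtain ⟨j, hj⟩ := hpos
      exact hm ⟨False, Ev.neg m j False h0 hj (fun h => h)⟩
    · push Not at hpos
      refine hm ⟨True, Ev.pos m True h0 (fun j => ?_) trivial⟩
      obtain ⟨p, hp⟩ := hcon j
      by_cases hpp : p
      · exact absurd (by simpa [hpp] using hp) (hpos j)
      · simpa [hpp] using hp
  choose! J hJ using fun m (h : ¬ ∃ p, Ev x w m p) => (hstep m h).2
  let s : ℕ → ℕ := fun i => Nat.rec m (fun _ n => ch x n (J n)) i
  have hs : ∀ i, ¬ ∃ p, Ev x w (s i) p := by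
    intro i
    induction i with
    | zero => exact hm
    | succ i ih => exact hJ _ ih
  refine ⟨fun n => if n % 2 = 0 then s (n / 2) else J (s (n / 2)), fun i => ?_⟩
  have e1 : 2 * i % 2 = 0 := by omega
  have e2 : 2 * i / 2 = i := by omega
  have e3 : 2 * (i + 1) % 2 = 0 := by omega
  have e4 : 2 * (i + 1) / 2 = i + 1 := by omega
  have e5 : ¬ (2 * i + 1) % 2 = 0 := by omega
  have e6 : (2 * i + 1) / 2 = i := by omega
  simp only [e1, e2, e3, e4, e5, e6, if_true, if_false]
  exact ⟨(hstep _ (hs i)).1, rfl⟩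

theorem exists_val {x : ℕ → ℕ} (w : ℕ → ℕ) (hx : ¬ ∃ b, Branch x b) : ∃ v u, Val x w v u := by
  classical
  choose P hP using fun m => exists_ev (w := w) hx m
  -- uniqueness of values
  have huniq : ∀ m p, Ev x w m p → ∀ q, Ev x w m q → (p ↔ q) := by
    intro m p hp
    induction hp with
    | leaf m k p h hp =>
      intro q hq
      cases hq with
      | leaf _ k' _ h' hq =>
        have : k = k' := by omega
        subst this
        rw [hp, hq]
      | pos _ _ h' _ _ => omega
      | neg _ j _ h' _ _ => omega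
    | pos m p h h' hp ih =>
      intro q hq
      cases hq with
      | leaf _ k' _ h'' hq => omega
      | pos _ _ _ _ hq => exact ⟨fun _ => hq, fun _ => hp⟩
      | neg _ j _ _ h2 hq => exact absurd trivial ((ih j True h2).2)
    | neg m j p h h' hp ih =>
      intro q hq
      cases hq with
      | leaf _ k' _ h'' hq => omega
      | pos _ _ _ h2 hq => exact absurd trivial ((ih False (h2 j)).1)
      | neg _ j' _ _ h2 hq => exact ⟨fun h => absurd h hp, fun h => absurd h hq⟩
  refine ⟨fun m => if P m then 1 else 0,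
    fun m => if h : ∃ j, P (ch x m j) then h.choose else 0, fun m => ⟨?_, ?_, ?_, ?_⟩⟩
  · dsimp only
    split_ifs <;> omega
  · intro k hk
    have h1 := huniq m (P m) (hP m) (bas k w) (Ev.leaf m k _ hk Iff.rfl)
    dsimp only
    by_cases hp : P m
    · simp [hp, h1.1 hp]
    · have h2 : ¬ bas k w := fun h => hp (h1.2 h)
      simp [hp, h2]
  · intro h0 h1 j
    dsimp only at h1 ⊢
    have hPm : P m := by
      by_contra h
      rw [if_neg h] at h1
      omega
    rw [if_neg]
    intro hj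
    have h2 : Ev x w m False := Ev.neg m j False h0 (by simpa [hj] using hP (ch x m j)) (fun h => h)
    exact (huniq m _ (hP m) _ h2).1 hPm
  · intro h0 h1
    dsimp only at h1 ⊢
    have hPm : ¬ P m := by
      intro h
      rw [if_pos h] at h1
      omega
    have hex : ∃ j, P (ch x m j) := by
      by_contra hcon
      push Not at hcon
      have h2 : Ev x w m True :=
        Ev.pos m True h0 (fun j => by simpa [hcon j] using hP (ch x m j)) trivial
      exact hPm ((huniq m _ (hP m) _ h2).2 trivial)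
    rw [dif_pos hex, if_pos hex.choose_spec]

/-- the set coded by `x` at the root is `A` -/
def Codes (x : ℕ → ℕ) (A : Set (ℕ → ℕ)) : Prop :=
  (¬ ∃ b, Branch x b) ∧ ∀ w, Ev x w 0 (w ∈ A)

/-- build a code from labels and children -/
def mkc (l : ℕ → ℕ) (c : ℕ → ℕ → ℕ) (n : ℕ) : ℕ :=
  if n % 2 = 0 then l (n / 2) else c (n / 2).unpair.1 (n / 2).unpair.2

theorem lab_mkc (l : ℕ → ℕ) (c : ℕ → ℕ → ℕ) (m : ℕ) : lab (mkc l c) m = l m := by
  unfold lab mkc
  rw [if_pos (by omega)]
  congr 1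
  omega

theorem ch_mkc (l : ℕ → ℕ) (c : ℕ → ℕ → ℕ) (m j : ℕ) : ch (mkc l c) m j = c m j := by
  unfold ch mkc
  rw [if_neg (by omega)]
  have : (2 * Nat.pair m j + 1) / 2 = Nat.pair m j := by omega
  rw [this]
  simp

theorem codes_basic (k : ℕ) : ∃ x, Codes x {w | bas k w} := by
  refine ⟨mkc (fun _ => k + 1) (fun _ _ => 0), ?_, fun w => ?_⟩
  · rintro ⟨b, hb⟩
    have := (hb 0).1
    rw [lab_mkc] at this
    omega
  · exact Ev.leaf 0 k _ (lab_mkc _ _ _) Iff.rfl

/-- complement of a countable union -/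
theorem codes_op {A : ℕ → Set (ℕ → ℕ)} (h : ∀ n, ∃ x, Codes x (A n)) : ∃ x, Codes x (⋃ n, A n)ᶜ := by
  choose X hX using h
  -- node `0` is the new root, node `1 + ⟨n, m⟩` is node `m` of the code `X n`
  set L : ℕ → ℕ := fun a => if a = 0 then 0 else lab (X (a - 1).unpair.1) (a - 1).unpair.2 with hL
  set Cc : ℕ → ℕ → ℕ := fun a j => if a = 0 then 1 + Nat.pair j 0 else
    1 + Nat.pair (a - 1).unpair.1 (ch (X (a - 1).unpair.1) (a - 1).unpair.2 j) with hCc
  have hlab0 : lab (mkc L Cc) 0 = 0 := by rw [lab_mkc, hL]; simp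
  have hch0 : ∀ j, ch (mkc L Cc) 0 j = 1 + Nat.pair j 0 := by
    intro j; rw [ch_mkc, hCc]; simp
  have hlab1 : ∀ n m, lab (mkc L Cc) (1 + Nat.pair n m) = lab (X n) m := by
    intro n m
    rw [lab_mkc, hL]
    simp only
    rw [if_neg (by omega)]
    simp
  have hch1 : ∀ n m j, ch (mkc L Cc) (1 + Nat.pair n m) j = 1 + Nat.pair n (ch (X n) m j) := by
    intro n m j
    rw [ch_mkc, hCc]
    simp only
    rw [if_neg (by omega)]
    simp
  refine ⟨mkc L Cc, ?_, fun w => ?_⟩
  · rintro ⟨b, hb⟩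
    -- shift the branch by one so that it starts inside some `X n`
    obtain ⟨n, m0, h0⟩ : ∃ n m, b 2 = 1 + Nat.pair n m := by
      have h1 := (hb 0).2
      simp only [mul_zero, zero_add, mul_one] at h1
      rcases Nat.eq_zero_or_pos (b 0) with h2 | h2
      · rw [h2, hch0] at h1
        exact ⟨_, _, h1⟩
      · have h3 : b 0 = 1 + Nat.pair (b 0 - 1).unpair.1 (b 0 - 1).unpair.2 := by
          rw [Nat.pair_unpair]; omega
        rw [h3, hch1] at h1
        exact ⟨_, _, h1⟩
    have key : ∀ i, ∃ m, b (2 * (i + 1)) = 1 + Nat.pair n m := by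
      intro i
      induction i with
      | zero => exact ⟨m0, h0⟩
      | succ i ih =>
        obtain ⟨m, hm⟩ := ih
        have h1 := (hb (i + 1)).2
        rw [hm, hch1] at h1
        exact ⟨_, h1⟩
    choose M hM using key
    apply (hX n).1
    refine ⟨fun t => if t % 2 = 0 then M (t / 2) else b (t + 2), fun i => ?_⟩
    have e1 : 2 * i % 2 = 0 := by omega
    have e2 : 2 * i / 2 = i := by omega
    have e3 : 2 * (i + 1) % 2 = 0 := by omega
    have e4 : 2 * (i + 1) / 2 = i + 1 := by omega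
    have e5 : ¬ (2 * i + 1) % 2 = 0 := by omega
    have e6 : 2 * i + 1 + 2 = 2 * (i + 1) + 1 := by omega
    simp only [e1, e2, e3, e4, e5, e6, if_true, if_false]
    have h1 := hb (i + 1)
    rw [hM i, hlab1, hch1, hM (i + 1)] at h1
    refine ⟨h1.1, ?_⟩
    have h2 : Nat.pair n (M (i + 1)) = Nat.pair n (ch (X n) (M i) (b (2 * (i + 1) + 1))) := by
      have := h1.2
      omega
    exact (Nat.pair_eq_pair.1 h2).2
  · have hev : ∀ n m p, Ev (X n) w m p → Ev (mkc L Cc) w (1 + Nat.pair n m) p := by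
      intro n m p h
      induction h with
      | leaf m k p h hp => exact Ev.leaf _ k p (by rw [hlab1]; exact h) hp
      | pos m p h h' hp ih =>
        exact Ev.pos _ p (by rw [hlab1]; exact h) (fun j => by rw [hch1]; exact ih j) hp
      | neg m j p h h' hp ih =>
        exact Ev.neg _ j p (by rw [hlab1]; exact h) (by rw [hch1]; exact ih) hp
    by_cases hw : ∃ n, w ∈ A n
    · obtain ⟨n, hn⟩ := hw
      refine Ev.neg 0 n _ hlab0 ?_ ?_
      · rw [hch0]
        have := hev n 0 _ ((hX n).2 w)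
        simpa [hn] using this
      · intro h
        exact h (Set.mem_iUnion.2 ⟨n, hn⟩)
    · push Not at hw
      refine Ev.pos 0 _ hlab0 (fun j => ?_) ?_
      · rw [hch0]
        have := hev j 0 _ ((hX j).2 w)
        simpa [hw j] using this
      · intro h
        obtain ⟨n, hn⟩ := Set.mem_iUnion.1 h
        exact hw n hn

theorem codes_compl {A : Set (ℕ → ℕ)} (h : ∃ x, Codes x A) : ∃ x, Codes x Aᶜ := by
  have := codes_op (A := fun _ => A) (fun _ => h)
  rwa [Set.iUnion_const] at this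

theorem codes_iUnion {A : ℕ → Set (ℕ → ℕ)} (h : ∀ n, ∃ x, Codes x (A n)) :
    ∃ x, Codes x (⋃ n, A n) := by
  have := codes_compl (codes_op h)
  rwa [compl_compl] at this

/-- every Borel set has a code -/
theorem exists_codes {A : Set (ℕ → ℕ)} (hA : MeasurableSet A) : ∃ x, Codes x A := by
  have hgen : (inferInstance : MeasurableSpace (ℕ → ℕ)) =
      MeasurableSpace.generateFrom {S | ∃ a b : ℕ, S = {w : ℕ → ℕ | w a = b}} := by
    apply le_antisymm
    · refine iSup_le fun a => ?_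
      rintro _ ⟨s, -, rfl⟩
      have : (fun w : ℕ → ℕ => w a) ⁻¹' s = ⋃ b ∈ s, {w : ℕ → ℕ | w a = b} := by
        ext w; simp
      rw [this]
      refine MeasurableSet.biUnion (Set.to_countable s) fun b _ => ?_
      exact MeasurableSpace.measurableSet_generateFrom ⟨a, b, rfl⟩
    · refine MeasurableSpace.generateFrom_le ?_
      rintro _ ⟨a, b, rfl⟩
      have h1 : Measurable (fun w : ℕ → ℕ => w a) := measurable_pi_apply a
      exact h1 (measurableSet_singleton b)
  have hA' : @MeasurableSet _ (MeasurableSpace.generateFrom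
      {S | ∃ a b : ℕ, S = {w : ℕ → ℕ | w a = b}}) A := by
    rw [← hgen]; exact hA
  clear hA
  induction hA' with
  | basic u hu =>
    obtain ⟨a, b, rfl⟩ := hu
    obtain ⟨x, hx⟩ := codes_basic (Nat.pair a b)
    refine ⟨x, ?_⟩
    have : {w : ℕ → ℕ | bas (Nat.pair a b) w} = {w : ℕ → ℕ | w a = b} := by
      ext w; simp [bas]
    rwa [this] at hx
  | empty =>
    have := codes_op (A := fun n => {w : ℕ → ℕ | bas (Nat.pair 0 n) w}) (fun n => codes_basic _)
    have h2 : (⋃ n, {w : ℕ → ℕ | bas (Nat.pair 0 n) w})ᶜ = (∅ : Set (ℕ → ℕ)) := by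
      rw [Set.compl_empty_iff]
      ext w
      simp [bas]
    rwa [h2] at this
  | compl t _ ih => exact codes_compl ih
  | iUnion f _ ih => exact codes_iUnion ih

/-- the closed sets `C 0` and `C 1` -/
def C (i : ℕ) : Set ((ℕ → ℕ) × (ℕ → ℕ)) :=
  {p | (p.2 0 = 0 ∧ Branch p.1 (fun n => p.2 (n + 1))) ∨
    (p.2 0 = 1 ∧ Val p.1 p.1 (fun n => p.2 (2 * n + 1)) (fun n => p.2 (2 * n + 2)) ∧ p.2 1 = i)}

theorem C_nonempty (x : ℕ → ℕ) : (∃ z, (x, z) ∈ C 0) ∨ (∃ z, (x, z) ∈ C 1) := by
  by_cases h : ∃ b, Branch x b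
  · obtain ⟨b, hb⟩ := h
    left
    refine ⟨fun n => if n = 0 then 0 else b (n - 1), Or.inl ⟨by simp, ?_⟩⟩
    simpa using hb
  · obtain ⟨v, u, hvu⟩ := exists_val x h
    have hle := (hvu 0).1
    set z : ℕ → ℕ := fun n => if n = 0 then 1 else if n % 2 = 1 then v (n / 2) else u (n / 2 - 1)
      with hz
    have h1 : (fun n => z (2 * n + 1)) = v := by
      funext n
      simp only [hz]
      rw [if_neg (by omega), if_pos (by omega)]
      congr 1; omega
    have h2 : (fun n => z (2 * n + 2)) = u := by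
      funext n
      simp only [hz]
      rw [if_neg (by omega), if_neg (by omega)]
      congr 1; omega
    have h3 : z 0 = 1 := by simp [hz]
    have h4 : z 1 = v 0 := by simp [hz]
    have hval : Val x x (fun n => z (2 * n + 1)) (fun n => z (2 * n + 2)) := by rw [h1, h2]; exact hvu
    rcases Nat.eq_zero_or_pos (v 0) with h0 | h0
    · left
      exact ⟨z, Or.inr ⟨h3, hval, by show z 1 = 0; rw [h4, h0]⟩⟩
    · right
      exact ⟨z, Or.inr ⟨h3, hval, by show z 1 = 1; rw [h4]; omega⟩⟩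

theorem C_diag {x : ℕ → ℕ} {A : Set (ℕ → ℕ)} (hx : Codes x A) :
    (x ∈ A → ¬ ∃ z, (x, z) ∈ C 0) ∧ (x ∉ A → ¬ ∃ z, (x, z) ∈ C 1) := by
  constructor
  · rintro hA ⟨z, ⟨-, hb⟩ | ⟨-, hv, h0⟩⟩
    · exact hx.1 ⟨_, hb⟩
    · have := (Ev.val hv (hx.2 x)).2 hA
      simp only [mul_zero, zero_add] at this
      have h0' : z 1 = 0 := h0
      omega
  · rintro hA ⟨z, ⟨-, hb⟩ | ⟨-, hv, h0⟩⟩
    · exact hx.1 ⟨_, hb⟩
    · have h0' : z 1 = 1 := h0
      exact hA ((Ev.val hv (hx.2 x)).1 (by simpa using h0'))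

end Pool.Agent.ShiftUnif
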