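import Mathlib

/-!
# Definitions: the shift graph on infinite subsets of `ℕ` and Borel colourings
-/

namespace Pool.Agent.ShiftUnif

/-- `[ℕ]^ℕ`: the infinite subsets of `ℕ`, as a subspace of the Cantor space `ℕ → Bool`
(with the induced Borel structure). -/
abbrev InfSets : Type := {y : ℕ → Bool // {n | y n = true}.Infinite}

/-- the shift map `y ↦ y \ {min y}` -/
noncomputable def shift (y : InfSets) : InfSets :=
  ⟨fun n => y.1 n && decide (n ≠ sInf {k | y.1 k = true}), by
    have h : {n | (y.1 n && decide (n ≠ sInf {k | y.1 k = true})) = true} =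
        {n | y.1 n = true} \ {sInf {k | y.1 k = true}} := by
      ext n
      simp
    rw [h]
    exact y.2.sdiff (Set.finite_singleton _)⟩

/-- adjacency in the shift graph -/
def Adj (y z : InfSets) : Prop := y ≠ z ∧ (z = shift y ∨ y = shift z)

/-- the shift graph restricted to `A` has a Borel `k`-colouring -/
def BorelColourable (k : ℕ) (A : Set InfSets) : Prop :=
  ∃ c : A → Fin k, Measurable c ∧ ∀ y z : A, Adj y.1 z.1 → c y ≠ c z

end Pool.Agent.ShiftUnif
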