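import Pool.Agent.ShiftUnif.Closed
import Pool.Agent.ShiftUnif.Defs

/-!
# The shift graph on infinite subsets of `ℕ`
-/

namespace Pool.Agent.ShiftUnif

theorem InfSets.exists_ge (y : InfSets) (m : ℕ) : ∃ n, m ≤ n ∧ y.1 n = true := by
  obtain ⟨n, hn, hlt⟩ := y.2.exists_gt m
  exact ⟨n, hlt.le, hn⟩

/-! ### next elements -/

/-- the least element of `y` that is at least `m` -/
noncomputable def nx (y : InfSets) (m : ℕ) : ℕ := by
  classical
  exact Nat.find (y.exists_ge m)

theorem nx_spec (y : InfSets) (m : ℕ) : m ≤ nx y m ∧ y.1 (nx y m) = true := by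
  classical
  exact Nat.find_spec (y.exists_ge m)

theorem nx_le {y : InfSets} {m n : ℕ} (h : m ≤ n) (hn : y.1 n = true) : nx y m ≤ n := by
  classical
  exact Nat.find_min' (y.exists_ge m) ⟨h, hn⟩

theorem measurable_coord (n : ℕ) : Measurable fun y : InfSets => y.1 n :=
  (measurable_pi_apply n).comp measurable_subtype_coe

theorem measurable_nx {t : InfSets → ℕ} (ht : Measurable t) : Measurable fun y => nx y (t y) := by
  classical
  unfold nx
  refine measurable_find (fun y => y.exists_ge (t y)) fun k => ?_
  have h1 : MeasurableSet {y : InfSets | t y ≤ k} := ht (Set.to_countable {n | n ≤ k}).measurableSet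
  have h2 : MeasurableSet {y : InfSets | y.1 k = true} :=
    (measurable_coord k) (measurableSet_singleton true)
  exact h1.inter h2

/-- first element -/
noncomputable def fst (y : InfSets) : ℕ := nx y 0

/-- second element -/
noncomputable def snd (y : InfSets) : ℕ := nx y (fst y + 1)

theorem fst_eq (y : InfSets) : fst y = sInf {k | y.1 k = true} := by
  apply le_antisymm
  · exact nx_le (Nat.zero_le _) (Nat.sInf_mem (s := {k | y.1 k = true}) ⟨_, (nx_spec y 0).2⟩)
  · exact Nat.sInf_le (nx_spec y 0).2

theorem shift_apply (y : InfSets) (n : ℕ) : (shift y).1 n = true ↔ y.1 n = true ∧ n ≠ fst y := by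
  rw [fst_eq]
  show (y.1 n && decide (n ≠ sInf {k | y.1 k = true})) = true ↔ _
  simp

theorem fst_le {y : InfSets} {n : ℕ} (h : y.1 n = true) : fst y ≤ n := nx_le (Nat.zero_le _) h

theorem fst_mem (y : InfSets) : y.1 (fst y) = true := (nx_spec y 0).2

theorem shift_mem_iff (y : InfSets) (n : ℕ) :
    (shift y).1 n = true ↔ y.1 n = true ∧ fst y < n := by
  rw [shift_apply]
  constructor
  · rintro ⟨h1, h2⟩
    exact ⟨h1, lt_of_le_of_ne (fst_le h1) (Ne.symm h2)⟩
  · rintro ⟨h1, h2⟩
    exact ⟨h1, h2.ne'⟩

theorem fst_shift (y : InfSets) : fst (shift y) = snd y := by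
  apply le_antisymm
  · apply fst_le
    rw [shift_mem_iff]
    have := nx_spec y (fst y + 1)
    exact ⟨this.2, by unfold snd; omega⟩
  · have h := fst_mem (shift y)
    rw [shift_mem_iff] at h
    exact nx_le (by omega) h.1

theorem fst_lt_snd (y : InfSets) : fst y < snd y := by
  have := (nx_spec y (fst y + 1)).1
  unfold snd
  omega

theorem measurable_fst' : Measurable fst := measurable_nx measurable_const

theorem measurable_snd' : Measurable snd :=
  measurable_nx (measurable_fst'.add_const 1)

theorem measurable_shift : Measurable shift := by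
  refine Measurable.subtype_mk ?_
  refine measurable_pi_iff.2 fun n => ?_
  have h : (fun y : InfSets => (y.1 n && decide (n ≠ sInf {k | y.1 k = true}))) =
      fun y : InfSets => (fun p : Bool × ℕ => (p.1 && decide (n ≠ p.2))) (y.1 n, fst y) := by
    funext y
    rw [fst_eq]
  rw [h]
  exact (measurable_of_countable (fun p : Bool × ℕ => (p.1 && decide (n ≠ p.2)))).comp
    ((measurable_coord n).prodMk measurable_fst')

/-- `j`-fold shift -/
noncomputable def sh (j : ℕ) (y : InfSets) : InfSets := shift^[j] y

theorem sh_zero (y : InfSets) : sh 0 y = y := rfl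

theorem sh_succ (j : ℕ) (y : InfSets) : sh (j + 1) y = sh j (shift y) := rfl

theorem sh_succ' (j : ℕ) (y : InfSets) : sh (j + 1) y = shift (sh j y) := by
  unfold sh
  rw [Function.iterate_succ_apply']

theorem measurable_sh (j : ℕ) : Measurable (sh j) := measurable_shift.iterate j

theorem fst_sh_lt (y : InfSets) (j : ℕ) : fst (sh j y) < fst (sh (j + 1) y) := by
  rw [sh_succ', fst_shift]
  exact fst_lt_snd _

theorem le_fst_sh (y : InfSets) (j : ℕ) : j ≤ fst (sh j y) := by
  induction j with
  | zero => exact Nat.zero_le _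
  | succ j ih =>
    have := fst_sh_lt y j
    omega

/-- every element of `y` is the first element of an iterated shift -/
theorem exists_sh_eq (y : InfSets) {n : ℕ} (hn : y.1 n = true) : ∃ j, fst (sh j y) = n := by
  induction n using Nat.strong_induction_on generalizing y with
  | _ n ih =>
    by_contra hcon
    push Not at hcon
    -- all iterated shifts contain `n`
    have key : ∀ j, (sh j y).1 n = true := by
      intro j
      induction j with
      | zero => exact hn
      | succ j ihj =>
        rw [sh_succ', shift_mem_iff]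
        exact ⟨ihj, lt_of_le_of_ne (fst_le ihj) (hcon j)⟩
    have h1 := fst_le (key (n + 1))
    have h2 := le_fst_sh y (n + 1)
    omega

/-! ### the colouring attached to a monotone unbounded function `κ` -/

/-- consecutive elements in the same class -/
def Same (κ : ℕ → ℕ) (y : InfSets) : Prop := κ (fst y) = κ (snd y)

/-- marker: same class now, different class next -/
def Mark (κ : ℕ → ℕ) (y : InfSets) : Prop := Same κ y ∧ ¬ Same κ (shift y)

theorem measurableSet_same (κ : ℕ → ℕ) : MeasurableSet {y | Same κ y} :=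
  measurableSet_eq_fun ((measurable_of_countable κ).comp measurable_fst')
    ((measurable_of_countable κ).comp measurable_snd')

theorem measurableSet_mark (κ : ℕ → ℕ) : MeasurableSet {y | Mark κ y} :=
  (measurableSet_same κ).inter (measurable_shift (measurableSet_same κ)).compl

theorem exists_wait (κ : ℕ → ℕ) (y : InfSets) :
    ∃ j, Mark κ (sh j y) ∨ ∀ i, ¬ Mark κ (sh i y) := by
  by_cases h : ∃ j, Mark κ (sh j y)
  · obtain ⟨j, hj⟩ := h
    exact ⟨j, Or.inl hj⟩
  · push Not at h
    exact ⟨0, Or.inr h⟩

/-- waiting time for the next marker -/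
noncomputable def wait (κ : ℕ → ℕ) (y : InfSets) : ℕ := by
  classical
  exact Nat.find (exists_wait κ y)

theorem measurable_wait (κ : ℕ → ℕ) : Measurable (wait κ) := by
  classical
  unfold wait
  refine measurable_find (fun y => exists_wait κ y) fun k => ?_
  have h1 : MeasurableSet {y | Mark κ (sh k y)} := measurable_sh k (measurableSet_mark κ)
  have h2 : MeasurableSet {y | ∀ i, ¬ Mark κ (sh i y)} := by
    have : {y | ∀ i, ¬ Mark κ (sh i y)} = ⋂ i, {y | Mark κ (sh i y)}ᶜ := by
      ext y; simp
    rw [this]
    exact MeasurableSet.iInter fun i => (measurable_sh i (measurableSet_mark κ)).compl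
  exact h1.union h2

/-- the orbit of `y` has a marker -/
def Good (κ : ℕ → ℕ) (y : InfSets) : Prop := ∃ j, Mark κ (sh j y)

theorem wait_spec {κ : ℕ → ℕ} {y : InfSets} (h : Good κ y) :
    Mark κ (sh (wait κ y) y) ∧ ∀ i < wait κ y, ¬ Mark κ (sh i y) := by
  classical
  have h1 := Nat.find_spec (exists_wait κ y)
  have h2 := fun (i : ℕ) => Nat.find_min (m := i) (exists_wait κ y)
  constructor
  · rcases h1 with h1 | h1
    · exact h1
    · obtain ⟨j, hj⟩ := h
      exact absurd hj (h1 j)
  · intro i hi hm
    exact h2 i hi (Or.inl hm)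

theorem wait_shift {κ : ℕ → ℕ} {y : InfSets} (h : Good κ y) (hpos : 0 < wait κ y) :
    wait κ (shift y) + 1 = wait κ y := by
  obtain ⟨h1, h2⟩ := wait_spec h
  obtain ⟨w, hw⟩ : ∃ w, wait κ y = w + 1 := ⟨wait κ y - 1, by omega⟩
  rw [hw] at h1 h2 ⊢
  rw [sh_succ] at h1
  have hg : Good κ (shift y) := ⟨w, h1⟩
  obtain ⟨h3, h4⟩ := wait_spec hg
  congr 1
  rcases lt_trichotomy (wait κ (shift y)) w with h | h | h
  · exfalso
    apply h2 (wait κ (shift y) + 1) (by omega)
    rw [sh_succ]; exact h3
  · exact h
  · exact absurd h1 (h4 w h)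

theorem wait_shift_pos {κ : ℕ → ℕ} {y : InfSets} (h : Good κ y) (h' : Good κ (shift y))
    (h0 : wait κ y = 0) : 0 < wait κ (shift y) := by
  rcases Nat.eq_zero_or_pos (wait κ (shift y)) with h1 | h1
  · exfalso
    have h2 := (wait_spec h).1
    have h3 := (wait_spec h').1
    rw [h0, sh_zero] at h2
    rw [h1, sh_zero] at h3
    exact h2.2 h3.1
  · exact h1

/-- the colouring -/
noncomputable def col (κ : ℕ → ℕ) (y : InfSets) : Fin 3 :=
  if wait κ y = 0 then 2 else if wait κ y % 2 = 0 then 0 else 1

theorem measurable_col (κ : ℕ → ℕ) : Measurable (col κ) := by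
  have : col κ = (fun n : ℕ => (if n = 0 then 2 else if n % 2 = 0 then 0 else 1 : Fin 3)) ∘ wait κ := rfl
  rw [this]
  exact (measurable_of_countable _).comp (measurable_wait κ)

theorem col_ne {κ : ℕ → ℕ} {y : InfSets} (h : Good κ y) (h' : Good κ (shift y)) :
    col κ y ≠ col κ (shift y) := by
  unfold col
  rcases Nat.eq_zero_or_pos (wait κ y) with h0 | h0
  · have h1 := wait_shift_pos h h' h0
    rw [if_pos h0, if_neg (by omega)]
    split_ifs <;> decide
  · have h1 := wait_shift h h0
    rw [if_neg (by omega)]
    rcases Nat.eq_zero_or_pos (wait κ (shift y)) with h2 | h2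
    · rw [if_pos h2]
      split_ifs <;> decide
    · rw [if_neg (by omega : ¬ wait κ (shift y) = 0)]
      split_ifs
      · omega
      · decide
      · decide
      · omega

/-- a set all of whose elements, together with their iterated shifts, are good is 3-colourable -/
theorem borelColourable_of_good {κ : ℕ → ℕ} {A : Set InfSets}
    (hA : ∀ y ∈ A, Good κ y ∧ Good κ (shift y)) : BorelColourable 3 A := by
  refine ⟨fun y => col κ y.1, (measurable_col κ).comp measurable_subtype_coe, ?_⟩
  rintro ⟨y, hy⟩ ⟨z, hz⟩ ⟨-, h | h⟩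
  · simp only at h ⊢
    rw [h]
    exact col_ne (hA y hy).1 (hA y hy).2
  · simp only at h ⊢
    rw [h]
    exact (col_ne (hA z hz).1 (hA z hz).2).symm

end Pool.Agent.ShiftUnif
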